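import Mathlib
import Pool.Agent.Run7.h530.Main

/-!
# A uniform lower bound for the local volumes of all nonnegative models

`(X, Δ)` is a klt pair, `N` is a `ℚ`-Cartier `ℚ`-divisor on `X`, and `B = N - s (K_X + Δ)` is big,
for a rational number `s`. Put `ε = min (α (X, Δ; B), 1 / s) ^ n vol (B)`, where `1 / s` is read as
`∞` if `s ≤ 0`. Then `ε` is positive, and it is a lower bound for the normalized volumes of all
closed points of all pairs `(X', Δ')` with a birational map `X ⇢ X'` which is nonnegative for
`K_X + Δ` and for `N`. For `N = 0` and `s = 1` the condition on `N` is void and `B = -(K_X + Δ)`.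
-/

set_option autoImplicit false

namespace Pool.Agent.Results.MP_c0c476_ag.NonnegVolumeBound

open Run7.h530
open scoped ENNReal

theorem result {K : Type} [Field K] [Algebra ℂ K] {n : ℕ} {ω : Frame K n} {X : ProjVar K}
    (D : LogPair ω X) (hD : D.IsKlt) (N : QCartier X) (s : ℚ)
    (hB : X.IsBig n (fun v => N.c v - s * D.κ.c v)) :
    0 < min (alpha D (fun v => N.c v - s * D.κ.c v)) (ENNReal.ofReal (s : ℝ))⁻¹ ^ n *
        X.vol n (fun v => N.c v - s * D.κ.c v) ∧
    ∀ (X' : ProjVar K) (D' : LogPair ω X') (N' : QCartier X'),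
      IsNonneg D D' → IsNonnegDiv N N' → ∀ (i : Fin (X'.N + 1)) (P : X'.Pt i),
        min (alpha D (fun v => N.c v - s * D.κ.c v)) (ENNReal.ofReal (s : ℝ))⁻¹ ^ n *
          X.vol n (fun v => N.c v - s * D.κ.c v) ≤ normalizedVolume P D' :=
  main hD N s hB

end Pool.Agent.Results.MP_c0c476_ag.NonnegVolumeBound
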